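import Pool.Agent.H520Z.Sel.Defs4
import Pool.Agent.H404Z.Sel.Contraction

set_option autoImplicit false

namespace Pool.Agent.H520Z.Sel

open MeasureTheory Set Filter Topology

namespace H69

lemma mc_zero (F : ℕ → ℕ → ℝ) : mc F 0 = 0 := by simp [mc]

lemma mc_one (F : ℕ → ℕ → ℝ) : mc F 1 = 1 := by simp [mc]

lemma mc_eq (F : ℕ → ℕ → ℝ) {n : ℕ} (hn : n ≠ 0) :
    mc F n = ∏ p ∈ n.primeFactors, F p (n.factorization p) := by
  simp [mc, hn, Finsupp.prod]

lemma mc_mul (F : ℕ → ℕ → ℝ) {m n : ℕ} (h : Nat.Coprime m n) :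
    mc F (m * n) = mc F m * mc F n := by
  rcases eq_or_ne m 0 with rfl | hm
  · simp [mc]
  rcases eq_or_ne n 0 with rfl | hn
  · simp [mc]
  simp only [mc, hm, hn, mul_eq_zero, or_self, if_false]
  rw [Nat.factorization_mul_of_coprime h, Finsupp.prod_add_index_of_disjoint]
  simpa using h.disjoint_primeFactors

lemma mc_prime_pow {F : ℕ → ℕ → ℝ} (h1 : ∀ p, F p 0 = 1) {p : ℕ} (hp : p.Prime) (k : ℕ) :
    mc F (p ^ k) = F p k := by
  have h0 : p ^ k ≠ 0 := pow_ne_zero _ hp.ne_zero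
  simp only [mc, h0, if_false]
  rw [hp.factorization_pow, Finsupp.prod_single_index (h1 p)]

lemma mc_prime {F : ℕ → ℕ → ℝ} (h1 : ∀ p, F p 0 = 1) {p : ℕ} (hp : p.Prime) :
    mc F p = F p 1 := by
  simpa using mc_prime_pow h1 hp 1

lemma mc_nonneg {F : ℕ → ℕ → ℝ} (h0 : ∀ p k, 0 ≤ F p k) (n : ℕ) : 0 ≤ mc F n := by
  rcases eq_or_ne n 0 with rfl | hn
  · simp [mc]
  rw [mc_eq F hn]
  exact Finset.prod_nonneg fun p _ => h0 _ _

lemma prod_le_exp {ι : Type*} (s : Finset ι) (f : ι → ℝ) (f0 : ∀ i, 0 ≤ f i) :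
    ∏ i ∈ s, (1 + f i) ≤ Real.exp (∑ i ∈ s, f i) := by
  rw [Real.exp_sum]
  refine Finset.prod_le_prod (fun i _ => by linarith [f0 i]) fun i _ => ?_
  linarith [Real.add_one_le_exp (f i)]

lemma prod_sub_le {ι : Type*} (s : Finset ι) (f g : ι → ℝ) (g0 : ∀ i, 0 ≤ g i)
    (hgf : ∀ i, g i ≤ f i) :
    ∏ i ∈ s, (1 + f i) - ∏ i ∈ s, (1 + g i) ≤
      (∑ i ∈ s, (f i - g i)) * ∏ i ∈ s, (1 + f i) := by
  classical
  induction s using Finset.induction_on with
  | empty => simp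
  | insert a s ha ih =>
    simp only [Finset.prod_insert ha, Finset.sum_insert ha]
    have P0 : 0 ≤ ∏ i ∈ s, (1 + f i) :=
      Finset.prod_nonneg fun i _ => by linarith [g0 i, hgf i]
    have S0 : 0 ≤ ∑ i ∈ s, (f i - g i) := Finset.sum_nonneg fun i _ => by linarith [hgf i]
    set P := ∏ i ∈ s, (1 + f i)
    set Q := ∏ i ∈ s, (1 + g i)
    set S := ∑ i ∈ s, (f i - g i)
    have a0 := g0 a
    have a1 := hgf a
    have h1 : (1 + g a) * (P - Q) ≤ (1 + g a) * (S * P) :=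
      mul_le_mul_of_nonneg_left ih (by linarith)
    have h2 : (1 + g a) * (S * P) ≤ (1 + f a) * (S * P) :=
      mul_le_mul_of_nonneg_right (by linarith) (mul_nonneg S0 P0)
    have h3 : 0 ≤ (f a - g a) * (f a * P) :=
      mul_nonneg (by linarith) (mul_nonneg (by linarith) P0)
    nlinarith

lemma mc_summable {F : ℕ → ℕ → ℝ} (h0 : ∀ p k, 0 ≤ F p k) (h1 : ∀ p, F p 0 = 1) {f : ℕ → ℝ}
    (hf : ∀ p, HasSum (F p) (1 + f p)) (f0 : ∀ p, 0 ≤ f p) {A : ℝ}
    (hA : ∀ s : Finset ℕ, ∑ p ∈ s, f p ≤ A) : Summable (mc F) := by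
  refine summable_of_sum_range_le (c := Real.exp A) (mc_nonneg h0) ?_
  intro N
  have hs : ∀ {p : ℕ}, p.Prime → Summable (fun n : ℕ ↦ ‖mc F (p ^ n)‖) := by
    intro p hp
    refine ((hf p).summable).congr fun n => ?_
    rw [Real.norm_of_nonneg (mc_nonneg h0 _), mc_prime_pow h1 hp]
  obtain ⟨-, h2⟩ := EulerProduct.summable_and_hasSum_smoothNumbers_prod_primesBelow_tsum
    (f := mc F) (mc_one F) (fun h => mc_mul F h) hs N
  have h3 : ∏ p ∈ N.primesBelow, ∑' n : ℕ, mc F (p ^ n) = ∏ p ∈ N.primesBelow, (1 + f p) := by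
    refine Finset.prod_congr rfl fun p hp => ?_
    have hp' := Nat.prime_of_mem_primesBelow hp
    simp_rw [mc_prime_pow h1 hp']
    exact (hf p).tsum_eq
  have h6 : ∑ i ∈ Finset.range N, mc F i ≤ ∏ p ∈ N.primesBelow, ∑' n : ℕ, mc F (p ^ n) := by
    have h7 : ∑ i ∈ Finset.range N, mc F i =
        ∑ i ∈ (Finset.range N).filter (fun i => i ∈ N.smoothNumbers), mc F i := by
      rw [Finset.sum_filter]
      refine Finset.sum_congr rfl fun i hi => ?_
      split_ifs with hh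
      · rfl
      · rcases eq_or_ne i 0 with rfl | hi0
        · exact mc_zero F
        · exact absurd (Nat.mem_smoothNumbers_of_lt (Nat.pos_of_ne_zero hi0)
            (Finset.mem_range.1 hi)) hh
    have h8 : ∑ i ∈ (Finset.range N).filter (fun i => i ∈ N.smoothNumbers), mc F i =
        ∑ i ∈ (Finset.range N).subtype (fun i => i ∈ N.smoothNumbers), mc F (i : ℕ) := by
      rw [Finset.sum_subtype_eq_sum_filter]
    rw [h7, h8]
    exact sum_le_hasSum _ (fun i _ => mc_nonneg h0 _) h2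
  calc _ ≤ _ := h6
    _ = _ := h3
    _ ≤ _ := prod_le_exp _ _ f0
    _ ≤ _ := Real.exp_le_exp.2 (hA _)

lemma mc_hasProd {F : ℕ → ℕ → ℝ} (h0 : ∀ p k, 0 ≤ F p k) (h1 : ∀ p, F p 0 = 1) {f : ℕ → ℝ}
    (hf : ∀ p, HasSum (F p) (1 + f p)) (hs : Summable (mc F)) :
    HasProd (fun p : Nat.Primes => 1 + f p) (∑' n, mc F n) := by
  have h2 := EulerProduct.eulerProduct_hasProd (f := mc F) (mc_one F) (fun h => mc_mul F h)
    (hs.congr fun n => (Real.norm_of_nonneg (mc_nonneg h0 n)).symm) (mc_zero F)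
  have h3 : (fun p : Nat.Primes => ∑' e, mc F (p ^ e)) = fun p : Nat.Primes => 1 + f p := by
    funext p
    simp_rw [mc_prime_pow h1 p.2]
    exact (hf p).tsum_eq
  rwa [h3] at h2

lemma sum_primes (s : Finset Nat.Primes) (f : ℕ → ℝ) :
    ∑ p ∈ s, f p = ∑ p ∈ s.map ⟨fun p : Nat.Primes => (p : ℕ), Subtype.val_injective⟩, f p := by
  rw [Finset.sum_map]; rfl

lemma mc_tsum_sub_le {F G : ℕ → ℕ → ℝ} (F0 : ∀ p k, 0 ≤ F p k) (F1 : ∀ p, F p 0 = 1)
    (G0 : ∀ p k, 0 ≤ G p k) (G1 : ∀ p, G p 0 = 1) {f g : ℕ → ℝ}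
    (hf : ∀ p, HasSum (F p) (1 + f p)) (hg : ∀ p, HasSum (G p) (1 + g p))
    (g0 : ∀ p, 0 ≤ g p) (hgf : ∀ p, g p ≤ f p) {A D : ℝ}
    (hA : ∀ s : Finset ℕ, ∑ p ∈ s, f p ≤ A) (hD : ∀ s : Finset ℕ, ∑ p ∈ s, (f p - g p) ≤ D) :
    Summable (mc F) ∧ Summable (mc G) ∧ ∑' n, mc F n - ∑' n, mc G n ≤ D * Real.exp A := by
  have f0 : ∀ p, 0 ≤ f p := fun p => (g0 p).trans (hgf p)
  have sF := mc_summable F0 F1 hf f0 hA
  have sG := mc_summable G0 G1 hg g0 (A := A)
    (fun s => (Finset.sum_le_sum fun p _ => hgf p).trans (hA s))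
  refine ⟨sF, sG, ?_⟩
  have pF := mc_hasProd F0 F1 hf sF
  have pG := mc_hasProd G0 G1 hg sG
  have D0 : 0 ≤ D := by simpa using hD ∅
  refine le_of_tendsto' (Tendsto.sub pF pG) fun s => ?_
  refine (prod_sub_le s (fun p => f p) (fun p => g p) (fun p => g0 p) (fun p => hgf p)).trans ?_
  refine mul_le_mul ?_ ?_ (Finset.prod_nonneg fun p _ => by linarith [f0 p]) D0
  · rw [sum_primes s (fun p => f p - g p)]; exact hD _
  · refine (prod_le_exp s (fun p => f p) (fun p => f0 p)).trans (Real.exp_le_exp.2 ?_)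
    rw [sum_primes s f]; exact hA _

/-- the part of `mc` on composite numbers -/
noncomputable def gm (F : ℕ → ℕ → ℝ) (n : ℕ) : ℝ := if 2 ≤ n ∧ ¬ n.Prime then mc F n else 0

lemma mc_split {F : ℕ → ℕ → ℝ} (h1 : ∀ p, F p 0 = 1) {u : ℕ → ℝ} (h2 : ∀ p, F p 1 = u p)
    (hu : ∀ p, ¬ p.Prime → u p = 0) (n : ℕ) :
    mc F n = gm F n + (if n = 1 then 1 else 0) + u n := by
  unfold gm
  by_cases hp : n.Prime
  · rw [mc_prime h1 hp, if_neg (by tauto), if_neg hp.one_lt.ne', h2]; simp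
  · rw [hu n hp]
    rcases Nat.lt_or_ge n 2 with h | h
    · interval_cases n
      · simp [mc_zero]
      · simp [mc_one]
    · rw [if_pos ⟨h, hp⟩, if_neg (by omega)]; simp

lemma gm_zero {F : ℕ → ℕ → ℝ} (h : ∀ p k, 1 ≤ k → F p k = 0) (n : ℕ) : gm F n = 0 := by
  unfold gm
  split_ifs with hn
  · have hn0 : n ≠ 0 := by omega
    rw [mc_eq F hn0]
    have hp : n.minFac ∈ n.primeFactors := by
      rw [Nat.mem_primeFactors]
      exact ⟨Nat.minFac_prime (by omega), Nat.minFac_dvd n, hn0⟩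
    refine Finset.prod_eq_zero hp (h _ _ ?_)
    exact (Nat.minFac_prime (by omega)).factorization_pos_of_dvd hn0 (Nat.minFac_dvd n)
  · rfl

lemma hasSum_two {a : ℕ → ℝ} (h : Summable fun k => a (k + 2)) :
    HasSum a (a 0 + (a 1 + ∑' k, a (k + 2))) := by
  have h1 := (hasSum_nat_add_iff (f := a) 2).1 h.hasSum
  have e : a 0 + (a 1 + ∑' k, a (k + 2)) = ∑' k, a (k + 2) + ∑ i ∈ Finset.range 2, a i := by
    rw [Finset.sum_range_succ, Finset.sum_range_one]; ring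
  rw [e]; exact h1

lemma gm_diff {Ψ Ψ' : ℕ → ℕ → ℝ} {u u' : ℕ → ℝ} {δ t : ℝ} (δ0 : 0 ≤ δ) (δ1 : δ ≤ 1)
    (ht : t ≤ 1 / 2)
    (a0 : ∀ p, Ψ p 0 = 1) (a0' : ∀ p, Ψ' p 0 = 1) (a1 : ∀ p, Ψ p 1 = u p)
    (a1' : ∀ p, Ψ' p 1 = u' p)
    (b1 : ∀ p, Summable (fun k => |Ψ' p (k + 2)|) ∧ ∑' k, |Ψ' p (k + 2)| ≤ δ * |u' p|)
    (b2 : ∀ p, Summable (fun k => |Ψ p (k + 2) - Ψ' p (k + 2)|) ∧
      ∑' k, |Ψ p (k + 2) - Ψ' p (k + 2)| ≤ δ * |u p - u' p|)
    (hu : Summable fun p => |u p|) (hu' : Summable fun p => |u' p|)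
    (z : ∀ p, ¬ p.Prime → u p = 0) (z' : ∀ p, ¬ p.Prime → u' p = 0)
    (hb : ∑' p, |u' p| + ∑' p, |u p - u' p| ≤ t) :
    Summable (fun n => |gm Ψ n - gm Ψ' n|) ∧
      ∑' n, |gm Ψ n - gm Ψ' n| ≤ (δ + 8 * t) * ∑' p, |u p - u' p| := by
  have hd : Summable fun p => |u p - u' p| := (hu.of_abs.sub hu'.of_abs).abs
  set U := ∑' p, |u' p| with hU
  set D := ∑' p, |u p - u' p| with hD
  have U0 : 0 ≤ U := tsum_nonneg fun _ => abs_nonneg _
  have D0 : 0 ≤ D := tsum_nonneg fun _ => abs_nonneg _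
  let G : ℕ → ℕ → ℝ := fun p k => |Ψ' p k|
  let F : ℕ → ℕ → ℝ := fun p k => |Ψ' p k| + |Ψ p k - Ψ' p k|
  let g : ℕ → ℝ := fun p => |u' p| + ∑' k, |Ψ' p (k + 2)|
  let e : ℕ → ℝ := fun p => |u p - u' p| + ∑' k, |Ψ p (k + 2) - Ψ' p (k + 2)|
  have G1 : ∀ p, G p 0 = 1 := fun p => by simp [G, a0']
  have F1 : ∀ p, F p 0 = 1 := fun p => by simp [F, a0, a0']
  have hg : ∀ p, HasSum (G p) (1 + g p) := fun p => by
    have := hasSum_two (a := G p) (b1 p).1
    simpa [G, g, a0', a1'] using this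
  have he : ∀ p, HasSum (fun k => |Ψ p k - Ψ' p k|) (e p) := fun p => by
    have := hasSum_two (a := fun k => |Ψ p k - Ψ' p k|) (b2 p).1
    simpa [e, a0, a0', a1, a1'] using this
  have hf : ∀ p, HasSum (F p) (1 + (g p + e p)) := fun p => by
    have := (hg p).add (he p)
    rw [add_assoc] at this
    exact this
  have g0 : ∀ p, 0 ≤ g p := fun p =>
    add_nonneg (abs_nonneg _) (tsum_nonneg fun _ => abs_nonneg _)
  have e0 : ∀ p, 0 ≤ e p := fun p =>
    add_nonneg (abs_nonneg _) (tsum_nonneg fun _ => abs_nonneg _)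
  have gs : ∀ s : Finset ℕ, ∑ p ∈ s, g p ≤ (1 + δ) * U := fun s => by
    calc ∑ p ∈ s, g p ≤ ∑ p ∈ s, (1 + δ) * |u' p| :=
          Finset.sum_le_sum fun p _ => by have := (b1 p).2; simp only [g]; linarith
      _ = (1 + δ) * ∑ p ∈ s, |u' p| := by rw [Finset.mul_sum]
      _ ≤ _ := mul_le_mul_of_nonneg_left (hu'.sum_le_tsum s fun _ _ => abs_nonneg _) (by linarith)
  have es : ∀ s : Finset ℕ, ∑ p ∈ s, e p ≤ (1 + δ) * D := fun s => by
    calc ∑ p ∈ s, e p ≤ ∑ p ∈ s, (1 + δ) * |u p - u' p| :=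
          Finset.sum_le_sum fun p _ => by have := (b2 p).2; simp only [e]; linarith
      _ = (1 + δ) * ∑ p ∈ s, |u p - u' p| := by rw [Finset.mul_sum]
      _ ≤ _ := mul_le_mul_of_nonneg_left (hd.sum_le_tsum s fun _ _ => abs_nonneg _) (by linarith)
  obtain ⟨sF, sG, key⟩ := mc_tsum_sub_le (F := F) (G := G)
    (fun p k => add_nonneg (abs_nonneg _) (abs_nonneg _)) F1 (fun p k => abs_nonneg _) G1 hf hg g0
    (fun p => by linarith [e0 p]) (A := 2 * t) (D := (1 + δ) * D)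
    (fun s => by
      rw [Finset.sum_add_distrib]
      have := gs s
      have := es s
      nlinarith)
    (fun s => by simpa using es s)
  have splitF := mc_split F1 (u := fun p => |u' p| + |u p - u' p|)
    (fun p => by simp [F, a1, a1']) (fun p hp => by simp [z p hp, z' p hp])
  have splitG := mc_split G1 (u := fun p => |u' p|)
    (fun p => by simp [G, a1']) (fun p hp => by simp [z' p hp])
  have a3 : HasSum (fun n => gm F n - gm G n) (∑' n, mc F n - ∑' n, mc G n - D) := by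
    have := (sF.hasSum.sub sG.hasSum).sub hd.hasSum
    have e : (fun n => gm F n - gm G n) = fun n => mc F n - mc G n - |u n - u' n| := by
      funext n
      rw [splitF n, splitG n]; ring
    rw [e]; exact this
  have hle : ∀ n, |gm Ψ n - gm Ψ' n| ≤ gm F n - gm G n := by
    intro n
    unfold gm
    split_ifs with hn
    · have hn0 : n ≠ 0 := by omega
      simp only [mc_eq _ hn0]
      apply abs_prod_sub_le
      · intro p; exact le_rfl
      · intro p; simp [F, G]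
    · simp
  have hs := Summable.of_nonneg_of_le (fun _ => abs_nonneg _) hle a3.summable
  refine ⟨hs, (hasSum_le hle hs.hasSum a3).trans ?_⟩
  have t0 : 0 ≤ t := by linarith
  have e1 := H404.exp_sub_one_le (x := 2 * t) (by linarith) (by linarith)
  have e2 : (1 + δ) * D * Real.exp (2 * t) ≤ (1 + δ) * D * (1 + 4 * t) :=
    mul_le_mul_of_nonneg_left (by linarith) (mul_nonneg (by linarith) D0)
  have e3 : 0 ≤ (1 - δ) * (t * D) := mul_nonneg (by linarith) (mul_nonneg t0 D0)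
  nlinarith

end H69

open H404 H69 in
theorem contraction_mc (K : ℝ) (hK : 0 ≤ K) : ∃ δ : ℝ, 0 < δ ∧
    ∀ (H : Type) (ev : H → ℕ → ℝ) (B : ℕ → Finset ℕ) (v : ℕ → ℝ) (r : ℕ → ℕ → ℝ)
      (Φ : ℕ → ℝ → ℕ → ℝ) (ω : ℕ → ℝ),
      (∀ j, (B j).Nonempty) → (∀ j, ∀ p ∈ B j, p.Prime) →
      (∀ i j, i ≠ j → Disjoint (B i) (B j)) → (∀ j, ∀ p ∈ B j, |v p| ≤ 1) →
      (∀ n, 1 ≤ n → Summable (fun j => |r n j|) ∧ ∑' j, |r n j| ≤ K) → ∑' j, |r 1 j| ≤ δ →
      (∀ h, ∃ M : ℝ, ∀ n, 1 ≤ n → |ev h n| ≤ M) →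
      (∀ h n, 1 ≤ n →
        HasSum (fun j => r n j * ((∑ p ∈ B j, v p * ev h p) / ((B j).card : ℝ))) (ev h n)) →
      (∀ p u, Φ p u 0 = 1 ∧ Φ p u 1 = u) → (∀ p k, 1 ≤ k → Φ p 0 k = 0) →
      (∀ j, ∀ p ∈ B j, |v p| / ((B j).card : ℝ) ≤ 2 * ω p) →
      (∀ j, ∀ p ∈ B j, ∀ u u' : ℝ, |u| ≤ ω p → |u'| ≤ ω p →
        Summable (fun k => |Φ p u (k + 2) - Φ p u' (k + 2)|) ∧
        ∑' k, |Φ p u (k + 2) - Φ p u' (k + 2)| ≤ δ * |u - u'|) →
      ∃ m u : ℕ → ℝ, (∀ j, |m j| ≤ 1 / 2) ∧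
        (∀ j, ∀ p ∈ B j, u p = m j * v p / ((B j).card : ℝ)) ∧
        (∀ p, (∀ j, p ∉ B j) → u p = 0) ∧ Summable (fun n => |mc (fun p => Φ p (u p)) n|) ∧
        ∀ h, HasSum (fun n => mc (fun p => Φ p (u p)) n * ev h n) 0 := by
  classical
  set ρ : ℝ := 1 / (50 * (K + 1)) with hρ
  have ρ0 : 0 < ρ := by positivity
  have ρK : ρ * (50 * (K + 1)) = 1 := by rw [hρ]; field_simp
  have ρ1 : ρ ≤ 1 / 50 := by nlinarith
  refine ⟨ρ / 2, by positivity,
    fun H ev B v r Φ ω hne hpr hdis hv hr hr1 hev hrep hΦ hΦ0 hω hlip => ?_⟩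
  let w : ℕ → ℕ → ℝ := fun j p => if p ∈ B j then v p / ((B j).card : ℝ) else 0
  have hcard : ∀ j, (0 : ℝ) < (B j).card := fun j => by exact_mod_cast (hne j).card_pos
  have hw : ∀ j, Summable (fun p => |w j p|) ∧ ∑' p, |w j p| ≤ 1 := by
    intro j
    have h1 : HasSum (fun p => |w j p|) (∑ p ∈ B j, |w j p|) :=
      hasSum_sum_of_ne_finset_zero fun p hp => by simp [w, hp]
    refine ⟨h1.summable, ?_⟩
    rw [h1.tsum_eq]
    calc ∑ p ∈ B j, |w j p| ≤ ∑ p ∈ B j, 1 / ((B j).card : ℝ) := by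
          refine Finset.sum_le_sum fun p hp => ?_
          simp only [w, if_pos hp]
          rw [abs_div, abs_of_pos (hcard j)]
          exact div_le_div_of_nonneg_right (hv j p hp) (hcard j).le
      _ = 1 := by
          rw [Finset.sum_const, nsmul_eq_mul]
          have := hcard j
          field_simp
  let r' : ℕ → ℕ → ℝ := fun n j => if n = 0 then 0 else r n j
  have hr' : ∀ n, Summable (fun j => |r' n j|) ∧ ∑' j, |r' n j| ≤ K := by
    intro n
    by_cases h : n = 0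
    · simp only [r', if_pos h, abs_zero, tsum_zero]; exact ⟨summable_zero, hK⟩
    · simp only [r', if_neg h]; exact hr n (by omega)
  have hu0 : ∀ m : ℕ → ℝ, ∀ p, (∀ j, p ∉ B j) → mat w m p = 0 := by
    intro m p hp
    simp [mat, w, hp]
  have hup : ∀ m : ℕ → ℝ, ∀ p, ¬ p.Prime → mat w m p = 0 := fun m p hp =>
    hu0 m p fun j hj => hp (hpr j p hj)
  have hval : ∀ m : ℕ → ℝ, ∀ j, ∀ p ∈ B j, mat w m p = m j * v p / ((B j).card : ℝ) := by
    intro m j p hp
    unfold mat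
    rw [tsum_eq_single j]
    · simp only [w, if_pos hp]; ring
    · intro i hi
      have : p ∉ B i := Finset.disjoint_right.1 (hdis i j hi) hp
      simp [w, this]
  have hmj : ∀ m : ℕ → ℝ, Summable (fun j => |m j|) → ∑' j, |m j| ≤ ρ → ∀ j, |m j| ≤ 1 / 2 := by
    intro m hm hb j
    have := hm.le_tsum j fun _ _ => abs_nonneg _
    linarith
  have hom : ∀ m : ℕ → ℝ, (∀ j, |m j| ≤ 1 / 2) → ∀ j, ∀ p ∈ B j, |mat w m p| ≤ ω p := by
    intro m hm j p hp
    rw [hval m j p hp, mul_div_assoc, abs_mul, abs_div, abs_of_pos (hcard j)]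
    have h1 := hω j p hp
    have h2 : 0 ≤ |v p| / ((B j).card : ℝ) := div_nonneg (abs_nonneg _) (hcard j).le
    have h3 := mul_le_mul_of_nonneg_right (hm j) h2
    linarith
  have hL : ∀ m m' : ℕ → ℝ, (∀ j, |m j| ≤ 1 / 2) → (∀ j, |m' j| ≤ 1 / 2) → ∀ p,
      Summable (fun k => |Φ p (mat w m p) (k + 2) - Φ p (mat w m' p) (k + 2)|) ∧
        ∑' k, |Φ p (mat w m p) (k + 2) - Φ p (mat w m' p) (k + 2)| ≤
          ρ / 2 * |mat w m p - mat w m' p| := by
    intro m m' hm hm' p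
    by_cases hp : ∃ j, p ∈ B j
    · obtain ⟨j, hj⟩ := hp
      exact hlip j p hj _ _ (hom m hm j p hj) (hom m' hm' j p hj)
    · push Not at hp
      rw [hu0 m p hp, hu0 m' p hp]
      simp [summable_zero]
  have hz0 : ∀ p, mat w (fun _ => 0) p = 0 := fun p => by simp [mat]
  have hL0 : ∀ m : ℕ → ℝ, (∀ j, |m j| ≤ 1 / 2) → ∀ p,
      Summable (fun k => |Φ p (mat w m p) (k + 2)|) ∧
        ∑' k, |Φ p (mat w m p) (k + 2)| ≤ ρ / 2 * |mat w m p| := by
    intro m hm p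
    have := hL m (fun _ => 0) hm (fun _ => by norm_num) p
    have h0 : ∀ k, Φ p 0 (k + 2) = 0 := fun k => hΦ0 p _ (by omega)
    simpa only [hz0, h0, sub_zero] using this
  have hgs : ∀ m : ℕ → ℝ, Summable (fun j => |m j|) → ∑' j, |m j| ≤ ρ →
      Summable (fun n => |gm (fun p => Φ p (mat w m p)) n|) ∧
        ∑' n, |gm (fun p => Φ p (mat w m p)) n| ≤ 9 * ρ * ρ := by
    intro m hm hb
    obtain ⟨a1, a2⟩ := mat_bound hw hm
    have h0 : ∀ p k, Φ p 0 (k + 2) = 0 := fun p k => hΦ0 p _ (by omega)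
    have := gm_diff (Ψ := fun p => Φ p (mat w m p)) (Ψ' := fun p => Φ p 0) (u := mat w m)
      (u' := fun _ => 0) (δ := ρ / 2) (t := ρ) (by positivity) (by linarith) (by linarith)
      (fun p => (hΦ p _).1) (fun p => (hΦ p _).1) (fun p => (hΦ p _).2) (fun p => (hΦ p _).2)
      (fun p => by simp [h0, summable_zero])
      (fun p => by simpa only [h0, sub_zero] using hL0 m (hmj m hm hb) p)
      a1 (by simp [summable_zero]) (hup m) (fun _ _ => rfl) (by simp; linarith)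
    simp only [gm_zero (F := fun p => Φ p 0) hΦ0, sub_zero] at this
    refine ⟨this.1, this.2.trans ?_⟩
    have h1 : ∑' p, |mat w m p| ≤ ρ := by linarith
    have h2 : 0 ≤ ∑' p, |mat w m p| := tsum_nonneg fun _ => abs_nonneg _
    nlinarith
  let T : (ℕ → ℝ) → (ℕ → ℝ) := fun m j => -r 1 j - mat r' (gm (fun p => Φ p (mat w m p))) j
  obtain ⟨m, hm, hmb, hfix⟩ := fixedpt ρ ρ0.le T (by
      intro m hm hb
      obtain ⟨g1, g2⟩ := hgs m hm hb
      obtain ⟨a1, a2⟩ := mat_bound hr' g1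
      have hle : ∀ j, |T m j| ≤ |r 1 j| + |mat r' (gm (fun p => Φ p (mat w m p))) j| :=
        fun j => by
          have := abs_sub (-r 1 j) (mat r' (gm (fun p => Φ p (mat w m p))) j)
          rwa [abs_neg] at this
      have s1 := (hr 1 le_rfl).1
      have s2 := Summable.of_nonneg_of_le (fun _ => abs_nonneg _) hle (s1.add a1)
      refine ⟨s2, (s2.tsum_le_tsum hle (s1.add a1)).trans ?_⟩
      rw [s1.tsum_add a1]
      have : K * ∑' n, |gm (fun p => Φ p (mat w m p)) n| ≤ K * (9 * ρ * ρ) := by gcongr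
      nlinarith) (by
      intro m m' hm hb hm' hb'
      obtain ⟨g1, -⟩ := hgs m hm hb
      obtain ⟨g1', -⟩ := hgs m' hm' hb'
      obtain ⟨a1, a2⟩ := mat_bound hw hm
      obtain ⟨a1', a2'⟩ := mat_bound hw hm'
      have hd : Summable fun j => |m j - m' j| := (hm.of_abs.sub hm'.of_abs).abs
      obtain ⟨-, b2⟩ := mat_bound hw hd
      simp_rw [← mat_sub hw hm hm'] at b2
      have hdb : ∑' j, |m j - m' j| ≤ 2 * ρ := by
        refine (hd.tsum_le_tsum (fun j => abs_sub (m j) (m' j)) (hm.add hm')).trans ?_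
        rw [hm.tsum_add hm']; linarith
      obtain ⟨c1, c2⟩ := gm_diff (Ψ := fun p => Φ p (mat w m p))
        (Ψ' := fun p => Φ p (mat w m' p)) (u := mat w m) (u' := mat w m') (δ := ρ / 2)
        (t := 3 * ρ) (by positivity) (by linarith) (by linarith)
        (fun p => (hΦ p _).1) (fun p => (hΦ p _).1) (fun p => (hΦ p _).2) (fun p => (hΦ p _).2)
        (hL0 m' (hmj m' hm' hb')) (hL m m' (hmj m hm hb) (hmj m' hm' hb'))
        a1 a1' (hup m) (hup m') (by linarith)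
      obtain ⟨-, d2⟩ := mat_bound hr' c1
      have e : ∀ j, |T m j - T m' j| =
          |mat r' (fun n => gm (fun p => Φ p (mat w m p)) n -
            gm (fun p => Φ p (mat w m' p)) n) j| := fun j => by
        rw [← mat_sub hr' g1 g1', ← abs_neg]
        congr 1
        simp only [T]; ring
      simp_rw [e]
      have D0 : 0 ≤ ∑' j, |m j - m' j| := tsum_nonneg fun _ => abs_nonneg _
      have f1 : (ρ / 2 + 8 * (3 * ρ)) * ∑' p, |mat w m p - mat w m' p| ≤
          (ρ / 2 + 8 * (3 * ρ)) * ∑' j, |m j - m' j| :=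
        mul_le_mul_of_nonneg_left (by linarith) (by positivity)
      have f2 : K * ∑' n, |gm (fun p => Φ p (mat w m p)) n - gm (fun p => Φ p (mat w m' p)) n| ≤
          K * ((ρ / 2 + 8 * (3 * ρ)) * ∑' j, |m j - m' j|) :=
        mul_le_mul_of_nonneg_left (by linarith) hK
      have f3 : K * (ρ / 2 + 8 * (3 * ρ)) ≤ 1 / 2 := by nlinarith
      nlinarith)
  obtain ⟨a1, -⟩ := mat_bound hw hm
  have hsplit := mc_split (F := fun p => Φ p (mat w m p)) (fun p => (hΦ p _).1) (u := mat w m)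
    (fun p => (hΦ p _).2) (hup m)
  refine ⟨m, mat w m, hmj m hm hmb, hval m, hu0 m, ?_, fun h => ?_⟩
  · have := (((hgs m hm hmb).1.of_abs.add (hasSum_ite_eq 1 (1 : ℝ)).summable).add a1.of_abs).abs
    refine this.congr fun n => ?_
    rw [hsplit n]
  · obtain ⟨M, hM⟩ := hev h
    set σ : ℕ → ℝ := fun j => (∑ p ∈ B j, v p * ev h p) / ((B j).card : ℝ) with hσ
    have M0 : 0 ≤ M := (abs_nonneg _).trans (hM 1 le_rfl)
    have hσb : ∀ j, |σ j| ≤ M := by
      intro j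
      rw [hσ]
      simp only
      rw [abs_div, abs_of_pos (hcard j), div_le_iff₀ (hcard j)]
      refine (Finset.abs_sum_le_sum_abs _ _).trans ?_
      rw [mul_comm, ← nsmul_eq_mul, ← Finset.sum_const]
      refine Finset.sum_le_sum fun p hp => ?_
      rw [abs_mul]
      have := mul_le_mul (hv j p hp) (hM p (hpr j p hp).one_lt.le) (abs_nonneg _) zero_le_one
      linarith
    let e' : ℕ → ℝ := fun n => if n = 0 then 0 else ev h n
    obtain ⟨S1, s1, t1⟩ := mat_fubini hr' (hgs m hm hmb).1 σ e' M hσb (fun n => by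
      by_cases h0 : n = 0
      · simp only [r', e', if_pos h0, zero_mul]; exact hasSum_zero
      · simp only [r', e', if_neg h0]; exact hrep h n (by omega))
    obtain ⟨S2, s2, t2⟩ := mat_fubini hw hm e' σ M (fun n => by
      by_cases h0 : n = 0
      · simp only [e', if_pos h0, abs_zero]; exact M0
      · simp only [e', if_neg h0]; exact hM n (by omega)) (fun j => by
      have h1 : HasSum (fun p => w j p * e' p) (∑ p ∈ B j, w j p * e' p) :=
        hasSum_sum_of_ne_finset_zero fun p hp => by simp [w, hp]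
      convert h1 using 1
      rw [hσ]
      simp only
      rw [Finset.sum_div]
      refine Finset.sum_congr rfl fun p hp => ?_
      simp only [w, e', if_pos hp, if_neg (hpr j p hp).ne_zero]
      ring)
    have t3 := hrep h 1 le_rfl
    have hz : S1 + ev h 1 + S2 = 0 := by
      refine ((t1.add t3).add s2).unique ?_
      convert hasSum_zero using 1
      ext j
      have := congrFun hfix j
      simp only [T] at this
      change mat r' (gm (fun p => Φ p (mat w m p))) j * σ j + r 1 j * σ j + m j * σ j = 0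
      linear_combination (-σ j) * this
    rw [← hz]
    convert (s1.add (hasSum_ite_eq 1 (ev h 1))).add t2 using 1
    ext n
    rw [hsplit n]
    by_cases h0 : n = 0
    · subst h0
      simp [e', gm, hup m 0 Nat.not_prime_zero]
    · simp only [e', if_neg h0]
      split_ifs with h1
      · subst h1; ring
      · ring

end Pool.Agent.H520Z.Sel
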